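import Pool.Agent.N566.VV.Defs

/-!
# Alternating sums of the values of the state model are `O(h^n)` (VV/10)

By helper907, for project VV of helper566; port of `Pool.Agent.H838R2.SL.T6`.
-/

set_option autoImplicit false

namespace Pool.Agent.N907.VV

open Pool.Agent.H835R2.Knot
open Pool.Agent.N566.VV
open Finset Filter Topology Asymptotics

section lin

variable {ι : Type} [Fintype ι] [DecidableEq ι]

omit [DecidableEq ι] in
theorem smul_Xl (c : ℂ) (A : Matrix (ι × ι) (ι × ι) ℂ) (i : ℕ) (f : F ι) (σ : ℕ → ι) :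
    (c • Xl A i f) σ = ∑ p : ι × ι, (c • A) (σ i, σ (i + 1)) p * f (updS i p.1 p.2 σ) := by
  simp only [Pi.smul_apply, Xl, Finset.mul_sum, smul_eq_mul, Matrix.smul_apply, mul_assoc]

theorem opP_add (T : Dat ι) (p : Piece) (d : ℕ → Bool) (f g : F ι) :
    opP T p d (f + g) = opP T p d f + opP T p d g := by
  funext σ
  cases p with
  | birth i b => simp only [opP, Bl, Pi.add_apply, mul_add, Finset.sum_add_distrib]
  | death i =>
    simp only [opP, Dl, Pi.add_apply]
    split_ifs
    · ring
    · ring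
  | pos i =>
    simp only [opP, Pi.add_apply]
    simp only [smul_Xl, Pi.add_apply, mul_add, Finset.sum_add_distrib]
  | neg i =>
    simp only [opP, Pi.add_apply]
    simp only [smul_Xl, Pi.add_apply, mul_add, Finset.sum_add_distrib]

theorem opP_smul (T : Dat ι) (p : Piece) (d : ℕ → Bool) (c : ℂ) (f : F ι) :
    opP T p d (c • f) = c • opP T p d f := by
  funext σ
  cases p with
  | birth i b =>
    simp only [opP, Bl, Pi.smul_apply, smul_eq_mul, Finset.mul_sum]
    refine Finset.sum_congr rfl fun x _ => ?_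
    ring
  | death i =>
    simp only [opP, Dl, Pi.smul_apply, smul_eq_mul]
    split_ifs
    · ring
    · ring
  | pos i =>
    show ((if d i = d (i + 1) then T.k else T.k') • Xl T.P i (c • f)) σ =
      c * ((if d i = d (i + 1) then T.k else T.k') • Xl T.P i f) σ
    rw [smul_Xl, smul_Xl, Finset.mul_sum]
    refine Finset.sum_congr rfl fun x _ => ?_
    simp only [Pi.smul_apply, smul_eq_mul]
    ring
  | neg i =>
    show ((if d i = d (i + 1) then T.k' else T.k) • Xl T.Q i (c • f)) σ =
      c * ((if d i = d (i + 1) then T.k' else T.k) • Xl T.Q i f) σ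
    rw [smul_Xl, smul_Xl, Finset.mul_sum]
    refine Finset.sum_congr rfl fun x _ => ?_
    simp only [Pi.smul_apply, smul_eq_mul]
    ring

theorem opP_zero (T : Dat ι) (p : Piece) (d : ℕ → Bool) : opP T p d (0 : F ι) = 0 := by
  have h := opP_smul T p d 0 (0 : F ι)
  rwa [zero_smul, zero_smul] at h

theorem opP_sum {α : Type} (T : Dat ι) (p : Piece) (d : ℕ → Bool) (s : Finset α) (g : α → F ι) :
    opP T p d (∑ t ∈ s, g t) = ∑ t ∈ s, opP T p d (g t) := by
  classical
  induction s using Finset.induction_on with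
  | empty => simp [opP_zero]
  | insert a s ha ih => rw [Finset.sum_insert ha, Finset.sum_insert ha, opP_add, ih]

end lin

section big

variable {N : ℕ}

/-- the state model at `exp h` -/
noncomputable abbrev TJ (N : ℕ) (h : ℂ) : Dat (Fin N) := datJ N (Complex.exp h)

/-- all values are `O(h ^ n)` -/
def Dv (n : ℕ) (f : ℂ → F (Fin N)) : Prop :=
  ∀ σ, (fun h : ℂ => f h σ) =O[𝓝[≠] 0] fun h => h ^ n

theorem big_sum {α : Type} [Fintype α] {n : ℕ} {g : α → ℂ → ℂ}
    (hg : ∀ x, g x =O[𝓝[≠] 0] fun h => h ^ n) :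
    (fun h : ℂ => ∑ x, g x h) =O[𝓝[≠] 0] fun h => h ^ n := by
  have h1 := IsBigO.sum (s := Finset.univ) fun x _ => hg x
  refine h1.congr_left fun h => ?_
  rw [Finset.sum_apply]

theorem big_mul {n : ℕ} {a b : ℂ → ℂ} (ha : a =O[𝓝[≠] 0] fun _ => (1 : ℂ))
    (hb : b =O[𝓝[≠] 0] fun h => h ^ n) : (fun h => a h * b h) =O[𝓝[≠] 0] fun h => h ^ n := by
  have := ha.mul hb
  simpa using this

theorem big_mul' {n : ℕ} {a b : ℂ → ℂ} (ha : a =O[𝓝[≠] 0] fun h => h)
    (hb : b =O[𝓝[≠] 0] fun h => h ^ n) : (fun h => a h * b h) =O[𝓝[≠] 0] fun h => h ^ (n + 1) := by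
  have := ha.mul hb
  refine this.congr_right fun h => ?_
  rw [pow_succ']

theorem Dv_P (hN : Odd N) (hBD : S_BD) (n : ℕ) (p : Piece) (d : ℕ → Bool) {f : ℂ → F (Fin N)}
    (hf : Dv n f) : Dv n (fun h => opP (TJ N h) p d (f h)) := by
  obtain ⟨hc, hd, hkP, hkP', hkQ, hkQ', -, -⟩ := hBD N hN
  intro σ
  cases p with
  | birth i b =>
    show (fun h : ℂ => ∑ x, (TJ N h).c x * f h (insS i x (Fin.rev x) σ)) =O[𝓝[≠] 0] fun h => h ^ n
    exact big_sum fun x => big_mul (hc x) (hf _)
  | death i =>
    by_cases hσ : σ (i + 1) = Fin.rev (σ i)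
    · have e : (fun h : ℂ => opP (TJ N h) (.death i) d (f h) σ) =
          fun h => (TJ N h).d (σ i) * f h (delS i σ) := by
        funext h
        exact if_pos hσ
      rw [e]
      exact big_mul (hd _) (hf _)
    · have e : (fun h : ℂ => opP (TJ N h) (.death i) d (f h) σ) = fun h => 0 := by
        funext h
        exact if_neg hσ
      rw [e]
      exact isBigO_zero _ _
  | pos i =>
    by_cases hd' : d i = d (i + 1)
    · have e : (fun h : ℂ => opP (TJ N h) (.pos i) d (f h) σ) = fun h => ∑ p : Fin N × Fin N,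
          ((TJ N h).k • (TJ N h).P) (σ i, σ (i + 1)) p * f h (updS i p.1 p.2 σ) := by
        funext h
        show ((if d i = d (i + 1) then (TJ N h).k else (TJ N h).k') • Xl (TJ N h).P i (f h)) σ = _
        rw [if_pos hd', smul_Xl]
      rw [e]
      exact big_sum fun x => big_mul (hkP _ _) (hf _)
    · have e : (fun h : ℂ => opP (TJ N h) (.pos i) d (f h) σ) = fun h => ∑ p : Fin N × Fin N,
          ((TJ N h).k' • (TJ N h).P) (σ i, σ (i + 1)) p * f h (updS i p.1 p.2 σ) := by
        funext h
        show ((if d i = d (i + 1) then (TJ N h).k else (TJ N h).k') • Xl (TJ N h).P i (f h)) σ = _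
        rw [if_neg hd', smul_Xl]
      rw [e]
      exact big_sum fun x => big_mul (hkP' _ _) (hf _)
  | neg i =>
    by_cases hd' : d i = d (i + 1)
    · have e : (fun h : ℂ => opP (TJ N h) (.neg i) d (f h) σ) = fun h => ∑ p : Fin N × Fin N,
          ((TJ N h).k' • (TJ N h).Q) (σ i, σ (i + 1)) p * f h (updS i p.1 p.2 σ) := by
        funext h
        show ((if d i = d (i + 1) then (TJ N h).k' else (TJ N h).k) • Xl (TJ N h).Q i (f h)) σ = _
        rw [if_pos hd', smul_Xl]
      rw [e]
      exact big_sum fun x => big_mul (hkQ' _ _) (hf _)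
    · have e : (fun h : ℂ => opP (TJ N h) (.neg i) d (f h) σ) = fun h => ∑ p : Fin N × Fin N,
          ((TJ N h).k • (TJ N h).Q) (σ i, σ (i + 1)) p * f h (updS i p.1 p.2 σ) := by
        funext h
        show ((if d i = d (i + 1) then (TJ N h).k' else (TJ N h).k) • Xl (TJ N h).Q i (f h)) σ = _
        rw [if_neg hd', smul_Xl]
      rw [e]
      exact big_sum fun x => big_mul (hkQ _ _) (hf _)

theorem Dv_pn (hN : Odd N) (hBD : S_BD) (n i : ℕ) (d : ℕ → Bool) {f : ℂ → F (Fin N)}
    (hf : Dv n f) (σ : ℕ → Fin N) : (fun h : ℂ => opP (TJ N h) (.pos i) d (f h) σ -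
      opP (TJ N h) (.neg i) d (f h) σ) =O[𝓝[≠] 0] fun h => h ^ (n + 1) := by
  obtain ⟨-, -, -, -, -, -, h1, h2⟩ := hBD N hN
  by_cases hd' : d i = d (i + 1)
  · have e : (fun h : ℂ => opP (TJ N h) (.pos i) d (f h) σ - opP (TJ N h) (.neg i) d (f h) σ) =
        fun h => ∑ p : Fin N × Fin N, (((TJ N h).k • (TJ N h).P) (σ i, σ (i + 1)) p -
          ((TJ N h).k' • (TJ N h).Q) (σ i, σ (i + 1)) p) * f h (updS i p.1 p.2 σ) := by
      funext h
      show ((if d i = d (i + 1) then (TJ N h).k else (TJ N h).k') • Xl (TJ N h).P i (f h)) σ -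
        ((if d i = d (i + 1) then (TJ N h).k' else (TJ N h).k) • Xl (TJ N h).Q i (f h)) σ = _
      rw [if_pos hd', if_pos hd', smul_Xl, smul_Xl, ← Finset.sum_sub_distrib]
      refine Finset.sum_congr rfl fun x _ => ?_
      rw [sub_mul]
    rw [e]
    exact big_sum fun x => big_mul' (h1 _ _) (hf _)
  · have e : (fun h : ℂ => opP (TJ N h) (.pos i) d (f h) σ - opP (TJ N h) (.neg i) d (f h) σ) =
        fun h => ∑ p : Fin N × Fin N, (((TJ N h).k' • (TJ N h).P) (σ i, σ (i + 1)) p -
          ((TJ N h).k • (TJ N h).Q) (σ i, σ (i + 1)) p) * f h (updS i p.1 p.2 σ) := by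
      funext h
      show ((if d i = d (i + 1) then (TJ N h).k else (TJ N h).k') • Xl (TJ N h).P i (f h)) σ -
        ((if d i = d (i + 1) then (TJ N h).k' else (TJ N h).k) • Xl (TJ N h).Q i (f h)) σ = _
      rw [if_neg hd', if_neg hd', smul_Xl, smul_Xl, ← Finset.sum_sub_distrib]
      refine Finset.sum_congr rfl fun x _ => ?_
      rw [sub_mul]
    rw [e]
    exact big_sum fun x => big_mul' (h2 _ _) (hf _)

theorem Dv_diff (hN : Odd N) (hBD : S_BD) (n : ℕ) (p : Piece) (d : ℕ → Bool) {f : ℂ → F (Fin N)}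
    (hf : Dv n f) :
    Dv (n + 1) (fun h => opP (TJ N h) p d (f h) - opP (TJ N h) p.switch d (f h)) := by
  intro σ
  cases p with
  | birth i b =>
    show (fun h : ℂ => opP (TJ N h) (.birth i b) d (f h) σ -
      opP (TJ N h) (.birth i b) d (f h) σ) =O[𝓝[≠] 0] fun h => h ^ (n + 1)
    simp only [sub_self]
    exact isBigO_zero _ _
  | death i =>
    show (fun h : ℂ => opP (TJ N h) (.death i) d (f h) σ -
      opP (TJ N h) (.death i) d (f h) σ) =O[𝓝[≠] 0] fun h => h ^ (n + 1)
    simp only [sub_self]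
    exact isBigO_zero _ _
  | pos i => exact Dv_pn hN hBD n i d hf σ
  | neg i =>
    have h1 := (Dv_pn hN hBD n i d hf σ).neg_left
    refine h1.congr_left fun h => ?_
    show -(opP (TJ N h) (.pos i) d (f h) σ - opP (TJ N h) (.neg i) d (f h) σ) =
      opP (TJ N h) (.neg i) d (f h) σ - opP (TJ N h) (.pos i) d (f h) σ
    ring

theorem act_switch (p : Piece) (A : Front) : p.switch.act A = p.act A := by
  cases p <;> rfl

/-- switching, with an offset -/
def sw' (T : Finset ℕ) : ℕ → Word → Word
  | _, [] => []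
  | m, p :: w => (if m ∈ T then p.switch else p) :: sw' T (m + 1) w

theorem switchAt_eq (T : Finset ℕ) (D : Word) : switchAt T D = sw' T 0 D := by
  have : ∀ (D : Word) (m : ℕ), D.mapIdx (fun k p => if k + m ∈ T then p.switch else p) =
      sw' T m D := by
    intro D
    induction D with
    | nil => intro m; rfl
    | cons p w ih =>
      intro m
      rw [List.mapIdx_cons, sw', ← ih (m + 1)]
      simp only [Nat.zero_add, Nat.add_assoc, Nat.add_comm 1 m]
  have h := this D 0
  simpa [switchAt] using h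

theorem sw'_insert (T : Finset ℕ) (a : ℕ) (D : Word) (m : ℕ) (h : a < m) :
    sw' (insert a T) m D = sw' T m D := by
  induction D generalizing m with
  | nil => rfl
  | cons p w ih =>
    rw [sw', sw', ih (m + 1) (by omega)]
    have : m ∈ insert a T ↔ m ∈ T := by
      rw [Finset.mem_insert]; constructor
      · rintro (h1 | h1)
        · omega
        · exact h1
      · exact Or.inr
    simp only [this]

theorem Dv_sum (hN : Odd N) (hBD : S_BD) (D : Word) : ∀ (m : ℕ) (S : Finset ℕ) (A : Front)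
    (f : F (Fin N)), (∀ x ∈ S, m ≤ x ∧ x < m + D.length) →
    Dv S.card (fun h => ∑ T ∈ S.powerset, (-1 : ℂ) ^ T.card • opD (TJ N h) (sw' T m D) A f) := by
  induction D with
  | nil =>
    intro m S A f h
    have : S = ∅ := Finset.eq_empty_of_forall_notMem fun x hx => by
      have := h x hx
      simp only [List.length_nil] at this
      omega
    subst this
    intro σ
    simp only [Finset.powerset_empty, Finset.sum_singleton, Finset.card_empty, pow_zero, one_smul]
    exact isBigO_const_const _ one_ne_zero _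
  | cons p w ih =>
    intro m S A f h
    by_cases hm : m ∈ S
    · obtain ⟨S₁, hS₁, rfl⟩ : ∃ S₁, m ∉ S₁ ∧ S = insert m S₁ :=
        ⟨S.erase m, Finset.notMem_erase _ _, (Finset.insert_erase hm).symm⟩
      have h1 : ∀ x ∈ S₁, m + 1 ≤ x ∧ x < m + 1 + w.length := by
        intro x hx
        have h2 := h x (Finset.mem_insert_of_mem hx)
        have h3 : x ≠ m := fun e => hS₁ (e ▸ hx)
        simp only [List.length_cons] at h2
        omega
      have hI := ih (m + 1) S₁ (p.act A) f h1
      have hI2 := Dv_diff hN hBD _ p A.dir hI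
      rw [Finset.card_insert_of_notMem hS₁]
      intro σ
      refine (hI2 σ).congr_left fun z => ?_
      refine congrFun ?_ σ
      rw [Finset.sum_powerset_insert hS₁]
      have e1 : ∀ T ∈ S₁.powerset, (-1 : ℂ) ^ T.card • opD (TJ N z) (sw' T m (p :: w)) A f =
          opP (TJ N z) p A.dir ((-1 : ℂ) ^ T.card •
            opD (TJ N z) (sw' T (m + 1) w) (p.act A) f) := by
        intro T hT
        have : m ∉ T := fun hh => hS₁ (Finset.mem_powerset.1 hT hh)
        rw [sw', if_neg this, opP_smul]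
        rfl
      have e2 : ∀ T ∈ S₁.powerset, (-1 : ℂ) ^ (insert m T).card •
          opD (TJ N z) (sw' (insert m T) m (p :: w)) A f =
          - opP (TJ N z) p.switch A.dir ((-1 : ℂ) ^ T.card •
            opD (TJ N z) (sw' T (m + 1) w) (p.act A) f) := by
        intro T hT
        have : m ∉ T := fun hh => hS₁ (Finset.mem_powerset.1 hT hh)
        rw [sw', if_pos (Finset.mem_insert_self _ _), sw'_insert _ _ _ _ (Nat.lt_succ_self m),
          Finset.card_insert_of_notMem this, opP_smul, pow_succ, mul_neg_one, neg_smul]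
        show -((-1 : ℂ) ^ T.card • opP (TJ N z) p.switch A.dir
          (opD (TJ N z) (sw' T (m + 1) w) (p.switch.act A) f)) = _
        rw [act_switch]
      rw [Finset.sum_congr rfl e1, Finset.sum_congr rfl e2, Finset.sum_neg_distrib,
        ← opP_sum, ← opP_sum, ← sub_eq_add_neg]
    · have h1 : ∀ x ∈ S, m + 1 ≤ x ∧ x < m + 1 + w.length := by
        intro x hx
        have h2 := h x hx
        have h3 : x ≠ m := fun e => hm (e ▸ hx)
        simp only [List.length_cons] at h2
        omega
      have hI := ih (m + 1) S (p.act A) f h1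
      have hI2 := Dv_P hN hBD _ p A.dir hI
      intro σ
      refine (hI2 σ).congr_left fun z => ?_
      refine congrFun ?_ σ
      have e1 : ∀ T ∈ S.powerset, (-1 : ℂ) ^ T.card • opD (TJ N z) (sw' T m (p :: w)) A f =
          opP (TJ N z) p A.dir ((-1 : ℂ) ^ T.card •
            opD (TJ N z) (sw' T (m + 1) w) (p.act A) f) := by
        intro T hT
        have : m ∉ T := fun hh => hm (Finset.mem_powerset.1 hT hh)
        rw [sw', if_neg this, opP_smul]
        rfl
      rw [Finset.sum_congr rfl e1, ← opP_sum]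

/-- VV/10: alternating sums are `O(h ^ n)` -/
theorem s_dv (h : S_BD) : S_DV := by
  intro N hN D S hS σ
  have h1 : ∀ x ∈ S, 0 ≤ x ∧ x < 0 + D.length := by
    intro x hx
    have h2 := hS hx
    simp only [crossingSet, Finset.mem_filter, Finset.mem_range] at h2
    exact ⟨Nat.zero_le _, by omega⟩
  have h3 := Dv_sum hN h D 0 S Front.empty (fun _ => 1) h1 σ
  refine h3.congr_left fun z => ?_
  show (∑ T ∈ S.powerset, (-1 : ℂ) ^ T.card • opD (TJ N z) (sw' T 0 D) Front.empty
    (fun _ => 1)) σ = _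
  rw [Finset.sum_apply]
  refine Finset.sum_congr rfl fun T _ => ?_
  rw [switchAt_eq]
  rfl

end big

end Pool.Agent.N907.VV
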